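import Mathlib
import Pool.Agent.Lib.MP_b573ec_lc_LT.Model
import Pool.Agent.Lib.MP_b573ec_lc_ST.Model

/-!
# Stack programs with a query tape: Cook reductions by stack machines with few passes

A stack program (see `Pool.Agent.ST.StackProg`) which has moreover a write-only query tape.  The
query tape and the stack are not counted as space; the number of moves and of queries and the height
of the stack are not bounded.
-/

set_option autoImplicit false

namespace Pool.Agent.StackO

open Pool.Agent.LT (Inp)
open Pool.Agent.ST (Move Conf cell)

/-- A configuration: position of the head, state and stack (`Conf`), and the word on the query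
tape. -/
structure OConf (w : ℕ) where
  conf : Conf w
  tape : List Bool

open Classical in
/-- The answer if the oracle `A` is asked (that is if `s` holds) about the word `u`: it is yes if `u`
belongs to `A` and has at most `M` letters.  If nothing is asked it is no. -/
noncomputable def reply (A : Set (List Bool)) (M : ℕ) (s : Bool) (u : List Bool) : Bool :=
  s && decide (u ∈ A ∧ u.length ≤ M)

/-- the word on the query tape after the query (if `s` holds), or without a query -/
def rest (s : Bool) (u : List Bool) : List Bool := if s then [] else u

/-- A deterministic stack program with a query tape, on `n` Boolean variables, with `p` passes and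
width `w`.  In a move it appends to the query tape the letter `write` (nothing if this is `none`);
then, if `ask` holds, it asks the oracle about the word on the query tape and empties the query
tape; then it makes the move `move` of a stack program, which depends on the answer (`false` if
nothing was asked).  All this depends on the pass, on the cell on which the head stands, on the
state, on the top symbol of the stack (`none` if the stack is empty) and on the value of the
variable.  After the last cell of the last pass the program stops, and its output is the value of
`acc` at its state. -/
structure OStackProg (n p w : ℕ) where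
  forward : Fin p → Bool
  start : Fin w
  write : Fin p → Fin n → Fin w → Option (Fin w) → Bool → Option Bool
  ask : Fin p → Fin n → Fin w → Option (Fin w) → Bool → Bool
  move : Fin p → Fin n → Fin w → Option (Fin w) → Bool → Bool → Move w
  acc : Fin w → Bool

/-- one step on the input `x`, with the oracle `A` for queries of at most `M` letters; nothing
changes after the last pass -/
noncomputable def OStackProg.step {n p w : ℕ} (P : OStackProg n p w) (A : Set (List Bool)) (M : ℕ)
    (x : Inp n) (c : OConf w) : OConf w :=
  if h : c.conf.pos < p * n then
    let k := (⟨c.conf.pos, h⟩ : Fin (p * n)).divNat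
    let i := cell P.forward ⟨c.conf.pos, h⟩
    let q := c.conf.state
    let a := c.conf.stack.head?
    let u := c.tape ++ (P.write k i q a (x i)).toList
    let s := P.ask k i q a (x i)
    ⟨c.conf.after (P.move k i q a (x i) (reply A M s u)), rest s u⟩
  else c

/-- the configuration after `k` steps on the input `x` -/
noncomputable def OStackProg.config {n p w : ℕ} (P : OStackProg n p w) (A : Set (List Bool))
    (M : ℕ) (x : Inp n) (k : ℕ) : OConf w := (P.step A M x)^[k] ⟨⟨0, P.start, []⟩, []⟩

/-- `P` finishes all its passes on the input `x`, with output `b` -/
def OStackProg.Outputs {n p w : ℕ} (P : OStackProg n p w) (A : Set (List Bool)) (M : ℕ)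
    (x : Inp n) (b : Bool) : Prop :=
  ∃ k, (P.config A M x k).conf.pos = p * n ∧ P.acc (P.config A M x k).conf.state = b

/-- `f` is computed by a deterministic stack program with `p` passes and width `w`, which asks
the oracle `A` about words of at most `M` letters -/
def StackDetO {n : ℕ} (A : Set (List Bool)) (M : ℕ) (f : Inp n → Bool) (p w : ℕ) : Prop :=
  ∃ P : OStackProg n p w, ∀ x, P.Outputs A M x (f x)

/-- A nondeterministic stack program with a query tape: `move k i q a b o s r mv` tells that in pass
`k`, on cell `i`, in state `q`, with top symbol `a`, if the variable has the value `b`, it is
allowed to append the letter `o` (nothing if `o = none`) to the query tape, to ask the oracle if `s`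
holds, and to make the move `mv` if the answer is `r` (`false` if nothing was asked). -/
structure ONStackProg (n p w : ℕ) where
  forward : Fin p → Bool
  start : Fin w → Prop
  move : Fin p → Fin n → Fin w → Option (Fin w) → Bool → Option Bool → Bool → Bool → Move w → Prop
  acc : Fin w → Prop

/-- the steps on the input `x`, with the oracle `A` for queries of at most `M` letters -/
def ONStackProg.Step {n p w : ℕ} (P : ONStackProg n p w) (A : Set (List Bool)) (M : ℕ) (x : Inp n)
    (c c' : OConf w) : Prop :=
  ∃ (h : c.conf.pos < p * n) (o : Option Bool) (s : Bool) (mv : Move w),
    P.move (⟨c.conf.pos, h⟩ : Fin (p * n)).divNat (cell P.forward ⟨c.conf.pos, h⟩) c.conf.state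
      c.conf.stack.head? (x (cell P.forward ⟨c.conf.pos, h⟩)) o s
      (reply A M s (c.tape ++ o.toList)) mv ∧
    c' = ⟨c.conf.after mv, rest s (c.tape ++ o.toList)⟩

/-- `P` has a computation on the input `x` which finishes all passes, in an accepting state -/
def ONStackProg.Accepts {n p w : ℕ} (P : ONStackProg n p w) (A : Set (List Bool)) (M : ℕ)
    (x : Inp n) : Prop :=
  ∃ q c, P.start q ∧ Relation.ReflTransGen (P.Step A M x) ⟨⟨0, q, []⟩, []⟩ c ∧
    c.conf.pos = p * n ∧ P.acc c.conf.state

/-- `f` is computed by a nondeterministic stack program with `p` passes and width `w`, which asks
the oracle `A` about words of at most `M` letters -/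
def StackNondetO {n : ℕ} (A : Set (List Bool)) (M : ℕ) (f : Inp n → Bool) (p w : ℕ) : Prop :=
  ∃ P : ONStackProg n p w, ∀ x, f x = true ↔ P.Accepts A M x

/-- The set has at most `c` words of each length. -/
def AtMostPerLength (A : Set (List Bool)) (c : ℕ) : Prop :=
  ∀ m : ℕ, {q ∈ A | q.length = m}.ncard ≤ c

end Pool.Agent.StackO
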