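import Mathlib
import Pool.Agent.Lib.MP_b573ec_lc_LT.Model
import Pool.Agent.Lib.MP_b573ec_lc_ST.Model
import Pool.Agent.Lib.MP_69a69c_lc_TS.Trie
import Pool.Agent.Lib.MP_69a69c_lc_FP.StackModel

/-!
# Stack programs with a sparse oracle are simulated by stack programs

The simulating program keeps, instead of the query tape, the node of the trie of the oracle.
-/

set_option autoImplicit false

namespace Pool.Agent.StackO

open Pool.Agent.LT (Inp)
open Pool.Agent.ST (Move Conf cell StackProg NStackProg StackDet StackNondet)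
open Pool.Agent.SparseTS (nodes node ext ans ext_node ans_node card_nodes)

variable {n p w : ℕ} {A : Set (List Bool)} {M : ℕ}

/-- the nodes of the trie and the dead node -/
abbrev Tn (A : Set (List Bool)) (M : ℕ) := Option {p // p ∈ nodes A M}

theorem length_of_mem_nodes {q : List Bool} (h : q ∈ nodes A M) : q.length ≤ M := by
  classical
  unfold nodes at h
  obtain ⟨⟨u, k⟩, h1, h2⟩ := Finset.mem_image.1 h
  rw [Finset.mem_product] at h1
  have h3 := (SparseTS.mem_words.1 h1.1).2
  simp only at h2 h3
  rw [← h2, List.length_take]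
  exact (min_le_right _ _).trans h3

/-- the answer at a node -/
noncomputable def nreply (A : Set (List Bool)) (M : ℕ) (s : Bool) (o : Tn A M) : Bool :=
  s && ans A M o

/-- the node after the query -/
noncomputable def nrest (A : Set (List Bool)) (M : ℕ) (s : Bool) (o : Tn A M) : Tn A M :=
  if s then node A M [] else o

theorem nreply_node (s : Bool) (u : List Bool) : nreply A M s (node A M u) = reply A M s u := by
  classical
  unfold nreply reply
  congr 1
  by_cases h : u.length ≤ M
  · rw [ans_node h]
    simp [h]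
  · have h1 : node A M u = none := dif_neg fun h2 => h (length_of_mem_nodes h2)
    rw [h1]
    simp [ans, h]

theorem nrest_node (s : Bool) (u : List Bool) : nrest A M s (node A M u) = node A M (rest s u) := by
  unfold nrest rest
  cases s <;> simp

variable {w' : ℕ} (e : Fin w × Tn A M ≃ Fin w')

/-- the state and the node of a state of the simulating program, the symbol of a symbol -/
def sym (a : Fin w') : Fin w := (e.symm a).1

theorem sym_e (a : Fin w) (o : Tn A M) : sym e (e (a, o)) = a := by
  simp [sym]

/-- the simulated configuration -/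
noncomputable def red (c : OConf w) : Conf w' :=
  ⟨c.conf.pos, e (c.conf.state, node A M c.tape), c.conf.stack.map fun a => e (a, none)⟩

/-- the simulated move, to the node `o` -/
def encMove (mv : Move w) (o : Tn A M) : Move w' :=
  match mv with
  | .push q a => .push (e (q, o)) (e (a, none))
  | .pop q => .pop (e (q, o))
  | .next q => .next (e (q, o))

theorem red_after (c : OConf w) (mv : Move w) (u : List Bool) :
    (red e c).after (encMove e mv (node A M u)) = red e ⟨c.conf.after mv, u⟩ := by
  cases mv <;> simp [Conf.after, encMove, red, List.map_tail]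

theorem red_head (c : OConf w) : (red e c).stack.head?.map (sym e) = c.conf.stack.head? := by
  unfold red
  cases h : c.conf.stack <;> simp [sym_e]

theorem red_state (c : OConf w) : e.symm (red e c).state = (c.conf.state, node A M c.tape) := by
  simp [red]

/-! ## Deterministic programs -/

/-- the simulating program -/
noncomputable def detSim (P : OStackProg n p w) : StackProg n p w' where
  forward := P.forward
  start := e (P.start, node A M [])
  move k i s top b :=
    let q := (e.symm s).1
    let a := top.map (sym e)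
    let u := ext A M (e.symm s).2 (P.write k i q a b).toList
    let t := P.ask k i q a b
    encMove e (P.move k i q a b (nreply A M t u)) (nrest A M t u)
  acc s := P.acc (e.symm s).1

theorem detSim_step (P : OStackProg n p w) (x : Inp n) (c : OConf w) :
    (detSim e P).step x (red e c) = red e (P.step A M x c) := by
  classical
  unfold StackProg.step OStackProg.step
  by_cases h : c.conf.pos < p * n
  · have h' : (red e c).pos < p * n := h
    rw [dif_pos h', dif_pos h]
    simp only
    rw [← red_after]
    congr 1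
    show encMove e _ _ = _
    rw [red_head, red_state]
    simp only
    rw [ext_node, nreply_node, nrest_node]
    rfl
  · have h' : ¬ (red e c).pos < p * n := h
    rw [dif_neg h', dif_neg h]

theorem detSim_conf (P : OStackProg n p w) (x : Inp n) (k : ℕ) :
    (detSim e P).conf x k = red e (P.config A M x k) := by
  unfold StackProg.conf OStackProg.config
  induction k with
  | zero => simp [red, detSim]
  | succ k ih => rw [Function.iterate_succ_apply', Function.iterate_succ_apply', ih, detSim_step]

theorem detSim_outputs (P : OStackProg n p w) (x : Inp n) (b : Bool) (h : P.Outputs A M x b) :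
    (detSim e P).Outputs x b := by
  obtain ⟨k, h1, h2⟩ := h
  refine ⟨k, ?_, ?_⟩
  · rw [detSim_conf]
    exact h1
  · rw [detSim_conf]
    show P.acc (e.symm (red e _).state).1 = b
    rw [red_state]
    exact h2

/-! ## Nondeterministic programs -/

/-- the simulating program -/
noncomputable def nSim (P : ONStackProg n p w) : NStackProg n p w' where
  forward := P.forward
  start s := ∃ q, P.start q ∧ s = e (q, node A M [])
  move k i s top b mv' := ∃ (o : Option Bool) (t : Bool) (mv : Move w),
    P.move k i (e.symm s).1 (top.map (sym e)) b o t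
      (nreply A M t (ext A M (e.symm s).2 o.toList)) mv ∧
    mv' = encMove e mv (nrest A M t (ext A M (e.symm s).2 o.toList))
  acc s := P.acc (e.symm s).1

theorem nSim_step (P : ONStackProg n p w) (x : Inp n) (c : OConf w) (d : Conf w') :
    (nSim e P).Step x (red e c) d ↔ ∃ c', P.Step A M x c c' ∧ d = red e c' := by
  unfold NStackProg.Step ONStackProg.Step
  constructor
  · rintro ⟨h, mv', ⟨o, t, mv, h1, h2⟩, h3⟩
    have h' : c.conf.pos < p * n := h
    rw [red_state, red_head] at h1
    rw [red_state] at h2
    simp only at h1 h2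
    rw [ext_node] at h1 h2
    rw [nreply_node] at h1
    rw [nrest_node] at h2
    refine ⟨_, ⟨h', o, t, mv, h1, rfl⟩, ?_⟩
    rw [h3, h2, red_after]
  · rintro ⟨c', ⟨h, o, t, mv, h1, h2⟩, h3⟩
    have h' : (red e c).pos < p * n := h
    refine ⟨h', encMove e mv (node A M (rest t (c.tape ++ o.toList))), ⟨o, t, mv, ?_, ?_⟩, ?_⟩
    · rw [red_state, red_head]
      simp only
      rw [ext_node, nreply_node]
      exact h1
    · rw [red_state]
      simp only
      rw [ext_node, nrest_node]
    · rw [h3, h2, red_after]

theorem nSim_accepts (P : ONStackProg n p w) (x : Inp n) :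
    P.Accepts A M x ↔ (nSim e P).Accepts x := by
  unfold NStackProg.Accepts ONStackProg.Accepts
  constructor
  · rintro ⟨q, c, h1, h2, h3, h4⟩
    refine ⟨e (q, node A M []), red e c, ⟨q, h1, rfl⟩, ?_, h3, ?_⟩
    · have h5 : Relation.ReflTransGen ((nSim e P).Step x) (red e ⟨⟨0, q, []⟩, []⟩) (red e c) := by
        clear h3 h4
        induction h2 with
        | refl => exact Relation.ReflTransGen.refl
        | tail _ hbd ih => exact ih.tail ((nSim_step e P x _ _).mpr ⟨_, hbd, rfl⟩)
      simpa [red] using h5
    · show P.acc (e.symm (red e c).state).1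
      rw [red_state]
      exact h4
  · rintro ⟨s, d, ⟨q, h1, rfl⟩, h2, h3, h4⟩
    have h5 : ∃ c, Relation.ReflTransGen (P.Step A M x) ⟨⟨0, q, []⟩, []⟩ c ∧ d = red e c := by
      have h6 : (⟨0, e (q, node A M []), []⟩ : Conf w') = red e ⟨⟨0, q, []⟩, []⟩ := by
        simp [red]
      rw [h6] at h2
      clear h3 h4
      induction h2 with
      | refl => exact ⟨_, Relation.ReflTransGen.refl, rfl⟩
      | tail _ hbd ih =>
        obtain ⟨c, h7, rfl⟩ := ih
        obtain ⟨c', h8, h9⟩ := (nSim_step e P x c _).mp hbd
        exact ⟨c', h7.tail h8, h9⟩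
    obtain ⟨c, h6, rfl⟩ := h5
    refine ⟨q, c, h1, h6, h3, ?_⟩
    have h7 : P.acc (e.symm (red e c).state).1 := h4
    rw [red_state] at h7
    exact h7

/-! ## Width -/

theorem card_states (hA : AtMostPerLength A (2 ^ p)) (hM : M ≤ 2 ^ p) (hp : 1 ≤ p)
    (hw : w ≤ 2 ^ p) : Fintype.card (Fin w × Tn A M) ≤ 2 ^ (7 * p) := by
  rw [Fintype.card_prod, Fintype.card_fin, Fintype.card_option, Fintype.card_coe]
  have h1 : (nodes A M).card ≤ 2 ^ p * (M + 1) ^ 2 := card_nodes (fun m => hA m) M
  have h2 : 1 ≤ 2 ^ p := Nat.one_le_two_pow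
  have h3 : (2 : ℕ) ≤ 2 ^ p := by
    calc (2 : ℕ) = 2 ^ 1 := by norm_num
      _ ≤ 2 ^ p := Nat.pow_le_pow_right (by norm_num) hp
  have h4 : M + 1 ≤ 2 ^ p * 2 := by omega
  calc w * ((nodes A M).card + 1) ≤ 2 ^ p * (2 ^ p * (2 ^ p * 2) ^ 2 + 1) := by
        refine Nat.mul_le_mul hw (Nat.add_le_add_right (h1.trans ?_) 1)
        exact Nat.mul_le_mul_left _ (Nat.pow_le_pow_left h4 2)
    _ ≤ 2 ^ p * (2 ^ p * (2 ^ p * 2 ^ p) ^ 2 * 2 ^ p) := by
        refine Nat.mul_le_mul_left _ ?_
        have h5 : 2 ^ p * (2 ^ p * 2) ^ 2 ≤ 2 ^ p * (2 ^ p * 2 ^ p) ^ 2 :=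
          Nat.mul_le_mul_left _ (Nat.pow_le_pow_left (Nat.mul_le_mul_left _ h3) 2)
        have h6 : 1 ≤ 2 ^ p * (2 ^ p * 2 ^ p) ^ 2 := Nat.one_le_iff_ne_zero.mpr (by positivity)
        nlinarith
    _ = 2 ^ (7 * p) := by rw [mul_comm 7 p, pow_mul]; ring

/-- deterministic programs with a sparse oracle -/
theorem stackDet_of_O {f : Inp n → Bool} {S : ℕ} (hA : AtMostPerLength A (2 ^ S))
    (hM : M ≤ 2 ^ S) (hS : 1 ≤ S) (hw : w ≤ 2 ^ S) (h : StackDetO A M f p w) :
    ∃ w' ≤ 2 ^ (7 * S), StackDet f p w' := by
  classical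
  obtain ⟨P, hP⟩ := h
  exact ⟨_, card_states hA hM hS hw, detSim (Fintype.equivFin (Fin w × Tn A M)) P,
    fun x => detSim_outputs _ P x _ (hP x)⟩

/-- nondeterministic programs with a sparse oracle -/
theorem stackNondet_of_O {f : Inp n → Bool} {S : ℕ} (hA : AtMostPerLength A (2 ^ S))
    (hM : M ≤ 2 ^ S) (hS : 1 ≤ S) (hw : w ≤ 2 ^ S) (h : StackNondetO A M f p w) :
    ∃ w' ≤ 2 ^ (7 * S), StackNondet f p w' := by
  classical
  obtain ⟨P, hP⟩ := h
  exact ⟨_, card_states hA hM hS hw, nSim (Fintype.equivFin (Fin w × Tn A M)) P,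
    fun x => (hP x).trans (nSim_accepts _ P x)⟩

end Pool.Agent.StackO
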