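import Mathlib
import Pool.Agent.Lib.MP_b573ec_lc_SR.Model
import Pool.Agent.Lib.MP_69a69c_lc_FP.StackModel

/-!
# Read programs with a query tape: Cook reductions by stack machines with few readings of the input

A read program (see `Pool.Agent.SR.ReadProg`) which has moreover a write-only query tape.  The query
tape and the stack are not counted as space; the number of moves and of queries and the height of
the stack are not bounded, only the number of readings of bits of the input.
-/

set_option autoImplicit false

namespace Pool.Agent.ReadO

open Pool.Agent.LT (Inp)
open Pool.Agent.ST (Conf)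
open Pool.Agent.SR (Move)
open Pool.Agent.StackO (OConf reply rest)

/-- the configuration after a move, on the input `x` -/
def after {n w : ℕ} (x : Inp n) (c : Conf w) : Move n w → Conf w
  | .push q a => ⟨c.pos, q, a :: c.stack⟩
  | .pop q => ⟨c.pos, q, c.stack.tail⟩
  | .read v f => ⟨c.pos + 1, f (x v), c.stack⟩

/-- A deterministic read program with a query tape, on `n` Boolean variables, with `T` readings and
width `w`.  In a move it appends to the query tape the letter `write` (nothing if this is `none`);
then, if `ask` holds, it asks the oracle about the word on the query tape and empties the query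
tape; then it makes the move `move` of a read program, which depends on the answer (`false` if
nothing was asked).  All this depends on the number of readings made so far, on the state and on the
top symbol of the stack (`none` if the stack is empty).  After `T` readings the program stops, and
its output is the value of `acc` at its state. -/
structure OReadProg (n T w : ℕ) where
  start : Fin w
  write : Fin T → Fin w → Option (Fin w) → Option Bool
  ask : Fin T → Fin w → Option (Fin w) → Bool
  move : Fin T → Fin w → Option (Fin w) → Bool → Move n w
  acc : Fin w → Bool

/-- one step on the input `x`, with the oracle `A` for queries of at most `M` letters; nothing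
changes after `T` readings -/
noncomputable def OReadProg.step {n T w : ℕ} (P : OReadProg n T w) (A : Set (List Bool)) (M : ℕ)
    (x : Inp n) (c : OConf w) : OConf w :=
  if h : c.conf.pos < T then
    let q := c.conf.state
    let a := c.conf.stack.head?
    let u := c.tape ++ (P.write ⟨c.conf.pos, h⟩ q a).toList
    let s := P.ask ⟨c.conf.pos, h⟩ q a
    ⟨after x c.conf (P.move ⟨c.conf.pos, h⟩ q a (reply A M s u)), rest s u⟩
  else c

/-- the configuration after `k` steps on the input `x` -/
noncomputable def OReadProg.config {n T w : ℕ} (P : OReadProg n T w) (A : Set (List Bool))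
    (M : ℕ) (x : Inp n) (k : ℕ) : OConf w := (P.step A M x)^[k] ⟨⟨0, P.start, []⟩, []⟩

/-- `P` makes all its readings on the input `x`, with output `b` -/
def OReadProg.Outputs {n T w : ℕ} (P : OReadProg n T w) (A : Set (List Bool)) (M : ℕ)
    (x : Inp n) (b : Bool) : Prop :=
  ∃ k, (P.config A M x k).conf.pos = T ∧ P.acc (P.config A M x k).conf.state = b

/-- `f` is computed by a deterministic read program with `T` readings and width `w`, which asks the
oracle `A` about words of at most `M` letters -/
def ReadsDetO {n : ℕ} (A : Set (List Bool)) (M : ℕ) (f : Inp n → Bool) (T w : ℕ) : Prop :=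
  ∃ P : OReadProg n T w, ∀ x, P.Outputs A M x (f x)

/-- `f` is computed by such programs with one-sided error: the program may depend on `ρ` uniform
random bits `c`; if `f x = 1` it has output `1` with probability at least `1/2`, if `f x = 0` it
never has output `1`. -/
def ReadsOneSidedO {n : ℕ} (A : Set (List Bool)) (M : ℕ) (f : Inp n → Bool) (T w : ℕ) : Prop :=
  ∃ (ρ : ℕ) (P : (Fin ρ → Bool) → OReadProg n T w),
    (∀ x, f x = true → 2 ^ ρ ≤ 2 * Nat.card {c : Fin ρ → Bool // (P c).Outputs A M x true}) ∧
    ∀ x, f x = false → ∀ c, ¬ (P c).Outputs A M x true

/-- `f` is computed by such programs with two-sided error `1/3` -/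
def ReadsTwoSidedO {n : ℕ} (A : Set (List Bool)) (M : ℕ) (f : Inp n → Bool) (T w : ℕ) : Prop :=
  ∃ (ρ : ℕ) (P : (Fin ρ → Bool) → OReadProg n T w),
    ∀ x, 2 * 2 ^ ρ ≤ 3 * Nat.card {c : Fin ρ → Bool // (P c).Outputs A M x (f x)}

end Pool.Agent.ReadO
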