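import Mathlib
import Pool.Agent.Lib.MP_69a69c_lc_FP.ReadModel
import Pool.Agent.Lib.MP_69a69c_lc_FP.StackSim

/-!
# Read programs with a sparse oracle are simulated by read programs

The simulating program keeps, instead of the query tape, the node of the trie of the oracle.
-/

set_option autoImplicit false

namespace Pool.Agent.ReadO

open Pool.Agent.LT (Inp)
open Pool.Agent.ST (Conf)
open Pool.Agent.SR (Move ReadProg ReadsDet ReadsOneSided ReadsTwoSided)
open Pool.Agent.StackO (OConf reply rest Tn nreply nrest nreply_node nrest_node sym sym_e red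
  red_head red_state card_states AtMostPerLength)
open Pool.Agent.SparseTS (nodes node ext ans ext_node ans_node card_nodes)

variable {n T w : ℕ} {A : Set (List Bool)} {M : ℕ} {w' : ℕ} (e : Fin w × Tn A M ≃ Fin w')

/-- the simulated move, to the node `o` -/
def encMove (mv : Move n w) (o : Tn A M) : Move n w' :=
  match mv with
  | .push q a => .push (e (q, o)) (e (a, none))
  | .pop q => .pop (e (q, o))
  | .read v f => .read v fun b => e (f b, o)

theorem red_after (x : Inp n) (c : OConf w) (mv : Move n w) (u : List Bool) :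
    after x (red e c) (encMove e mv (node A M u)) = red e ⟨after x c.conf mv, u⟩ := by
  cases mv <;> simp [after, encMove, red, List.map_tail]

/-- the simulating program -/
noncomputable def sim (P : OReadProg n T w) : ReadProg n T w' where
  start := e (P.start, node A M [])
  move k s top :=
    let q := (e.symm s).1
    let a := top.map (sym e)
    let u := ext A M (e.symm s).2 (P.write k q a).toList
    let t := P.ask k q a
    encMove e (P.move k q a (nreply A M t u)) (nrest A M t u)
  acc s := P.acc (e.symm s).1

theorem step_eq (P : ReadProg n T w) (x : Inp n) (c : Conf w) (h : c.pos < T) :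
    P.step x c = after x c (P.move ⟨c.pos, h⟩ c.state c.stack.head?) := by
  unfold ReadProg.step
  rw [dif_pos h]
  cases P.move ⟨c.pos, h⟩ c.state c.stack.head? <;> rfl

theorem sim_step (P : OReadProg n T w) (x : Inp n) (c : OConf w) :
    (sim e P).step x (red e c) = red e (P.step A M x c) := by
  classical
  by_cases h : c.conf.pos < T
  · have h' : (red e c).pos < T := h
    rw [step_eq _ _ _ h']
    unfold OReadProg.step
    rw [dif_pos h]
    simp only
    rw [← red_after]
    congr 1
    show encMove e _ _ = _
    rw [red_head, red_state]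
    simp only
    rw [ext_node, nreply_node, nrest_node]
    rfl
  · have h' : ¬ (red e c).pos < T := h
    unfold ReadProg.step OReadProg.step
    rw [dif_neg h', dif_neg h]

theorem sim_conf (P : OReadProg n T w) (x : Inp n) (k : ℕ) :
    (sim e P).conf x k = red e (P.config A M x k) := by
  unfold ReadProg.conf OReadProg.config
  induction k with
  | zero => simp [red, sim]
  | succ k ih => rw [Function.iterate_succ_apply', Function.iterate_succ_apply', ih, sim_step]

theorem sim_outputs (P : OReadProg n T w) (x : Inp n) (b : Bool) :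
    (sim e P).Outputs x b ↔ P.Outputs A M x b := by
  unfold ReadProg.Outputs OReadProg.Outputs
  refine exists_congr fun k => ?_
  rw [sim_conf]
  refine and_congr Iff.rfl ?_
  have h : (sim e P).acc (red e (P.config A M x k)).state =
      P.acc (P.config A M x k).conf.state := by
    show P.acc (e.symm (red e _).state).1 = _
    rw [red_state]
  rw [h]

/-- deterministic programs with a sparse oracle -/
theorem readsDet_of_O {f : Inp n → Bool} {S : ℕ} (hA : AtMostPerLength A (2 ^ S))
    (hM : M ≤ 2 ^ S) (hS : 1 ≤ S) (hw : w ≤ 2 ^ S) (h : ReadsDetO A M f T w) :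
    ∃ w' ≤ 2 ^ (7 * S), ReadsDet f T w' := by
  classical
  obtain ⟨P, hP⟩ := h
  exact ⟨_, card_states hA hM hS hw, sim (Fintype.equivFin (Fin w × Tn A M)) P,
    fun x => (sim_outputs _ P x _).2 (hP x)⟩

/-- a deterministic program as a randomized one -/
theorem twoSidedO_of_detO {f : Inp n → Bool} (h : ReadsDetO A M f T w) :
    ReadsTwoSidedO A M f T w := by
  obtain ⟨P, hP⟩ := h
  refine ⟨0, fun _ => P, fun x => ?_⟩
  have h2 : Nat.card {c : Fin 0 → Bool // P.Outputs A M x (f x)} = 1 := by
    rw [Nat.card_eq_one_iff_unique]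
    refine ⟨⟨fun a b => ?_⟩, ⟨⟨fun i => i.elim0, hP x⟩⟩⟩
    exact Subtype.ext (Subsingleton.elim _ _)
  rw [h2]
  norm_num

/-- one-sided error programs with a sparse oracle -/
theorem readsOneSided_of_O {f : Inp n → Bool} {S : ℕ} (hA : AtMostPerLength A (2 ^ S))
    (hM : M ≤ 2 ^ S) (hS : 1 ≤ S) (hw : w ≤ 2 ^ S) (h : ReadsOneSidedO A M f T w) :
    ∃ w' ≤ 2 ^ (7 * S), ReadsOneSided f T w' := by
  classical
  obtain ⟨ρ, P, h1, h2⟩ := h
  refine ⟨_, card_states hA hM hS hw, ρ,
    fun c => sim (Fintype.equivFin (Fin w × Tn A M)) (P c), fun x hx => ?_, fun x hx c => ?_⟩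
  · simp only [sim_outputs]
    exact h1 x hx
  · rw [sim_outputs]
    exact h2 x hx c

/-- two-sided error programs with a sparse oracle -/
theorem readsTwoSided_of_O {f : Inp n → Bool} {S : ℕ} (hA : AtMostPerLength A (2 ^ S))
    (hM : M ≤ 2 ^ S) (hS : 1 ≤ S) (hw : w ≤ 2 ^ S) (h : ReadsTwoSidedO A M f T w) :
    ∃ w' ≤ 2 ^ (7 * S), ReadsTwoSided f T w' := by
  classical
  obtain ⟨ρ, P, h1⟩ := h
  refine ⟨_, card_states hA hM hS hw, ρ,
    fun c => sim (Fintype.equivFin (Fin w × Tn A M)) (P c), fun x => ?_⟩
  simp only [sim_outputs]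
  exact h1 x

end Pool.Agent.ReadO
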